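import Pool.Agent.Helper27.UC.Goals

set_option autoImplicit false

noncomputable section

namespace Pool.Agent.Helper62.UC.G1R

open Polynomial Module Pool.Agent.Helper97.Tate Pool.Agent.Helper27.UC

variable {K : Type} [Field K]

lemma cof_add (i j : ℕ) (f g : R2 K) : cof i j (f + g) = cof i j f + cof i j g := by
  unfold cof
  rw [Polynomial.coeff_add, Polynomial.coeff_add]

lemma cof_smul (i j : ℕ) (c : K) (f : R2 K) : cof i j (c • f) = c * cof i j f := by
  unfold cof
  rw [Polynomial.coeff_smul, Polynomial.coeff_smul, smul_eq_mul]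

lemma cof_zero (i j : ℕ) : cof i j (0 : R2 K) = 0 := by
  unfold cof
  simp

lemma cof_sum {ι : Type} (s : Finset ι) (i j : ℕ) (f : ι → R2 K) :
    cof i j (∑ k ∈ s, f k) = ∑ k ∈ s, cof i j (f k) := by
  unfold cof
  rw [Polynomial.finsetSum_coeff, Polynomial.finsetSum_coeff]

lemma ext_cof {f g : R2 K} (h : ∀ i j, cof i j f = cof i j g) : f = g := by
  ext j i
  exact h i j

lemma cof_hc (k i j : ℕ) (f : R2 K) : cof i j (hc k f) = if i + j = k then cof i j f else 0 := by
  have h0 : hc k f = ∑ j ∈ Finset.range (k + 1),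
    Polynomial.monomial j (Polynomial.monomial (k - j) (cof (k - j) j f)) := rfl
  rw [h0, cof_sum]
  have h1 : ∀ j' : ℕ, cof i j (Polynomial.monomial j'
      (Polynomial.monomial (k - j') (cof (k - j') j' f)) : R2 K) =
      if j' = j then (if k - j' = i then cof (k - j') j' f else 0) else 0 := by
    intro j'
    conv_lhs => unfold cof
    rw [Polynomial.coeff_monomial]
    split_ifs with h2 h3
    · rw [Polynomial.coeff_monomial, if_pos h3]
      rfl
    · rw [Polynomial.coeff_monomial, if_neg h3]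
    · simp
  simp only [h1]
  rw [Finset.sum_ite_eq' (Finset.range (k + 1)) j]
  by_cases h : i + j = k
  · have h2 : j ∈ Finset.range (k + 1) := by
      rw [Finset.mem_range]; omega
    have h3 : k - j = i := by omega
    rw [if_pos h2, if_pos h3, if_pos h, h3]
  · rw [if_neg h]
    by_cases h2 : j ∈ Finset.range (k + 1)
    · rw [if_pos h2, if_neg]
      rw [Finset.mem_range] at h2
      omega
    · rw [if_neg h2]

lemma mem_De {D : ℕ} {f : R2 K} : f ∈ De D ↔ ∀ i j, D < i + j → cof i j f = 0 := Iff.rfl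

lemma mem_Od {D : ℕ} {f : R2 K} : f ∈ Od D ↔ ∀ i j, i + j < D → cof i j f = 0 := Iff.rfl

lemma exists_De (f : R2 K) : ∃ D, f ∈ De D := by
  refine ⟨f.natDegree + ∑ j ∈ Finset.range (f.natDegree + 1), (f.coeff j).natDegree, ?_⟩
  intro i j h
  unfold cof
  by_cases hj : f.natDegree < j
  · rw [Polynomial.coeff_eq_zero_of_natDegree_lt hj]
    simp
  · apply Polynomial.coeff_eq_zero_of_natDegree_lt
    have h1 : (f.coeff j).natDegree ≤ ∑ j ∈ Finset.range (f.natDegree + 1), (f.coeff j).natDegree := by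
      apply Finset.single_le_sum (f := fun j => (f.coeff j).natDegree) (fun _ _ => Nat.zero_le _)
      rw [Finset.mem_range]; omega
    omega

lemma exists_De_fam {n : ℕ} (v : Fin n → R2 K) : ∃ D, ∀ i, v i ∈ De D := by
  choose D hD using fun i => exists_De (v i)
  refine ⟨∑ i, D i, fun i => ?_⟩
  intro a b h
  apply hD i a b
  have h1 : D i ≤ ∑ i, D i := Finset.single_le_sum (f := D) (fun _ _ => Nat.zero_le _) (Finset.mem_univ i)
  omega

section Abstract

variable {V V' : Type} [AddCommGroup V] [Module K V] [AddCommGroup V'] [Module K V']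

/-- rank and nullity for a restriction -/
lemma rank_null (W : Submodule K V) [FiniteDimensional K W] (f : V →ₗ[K] V') :
    finrank K (W.map f) + finrank K (W ⊓ LinearMap.ker f : Submodule K V) = finrank K W := by
  have h := LinearMap.finrank_range_add_finrank_ker (f.domRestrict W)
  rw [LinearMap.range_domRestrict] at h
  have h3 : LinearMap.ker (f.domRestrict W) = (LinearMap.ker f).comap W.subtype := by
    ext x
    simp
  have h2 : finrank K (LinearMap.ker (f.domRestrict W)) =
      finrank K (W ⊓ LinearMap.ker f : Submodule K V) := by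
    rw [← Submodule.finrank_map_subtype_eq W (LinearMap.ker (f.domRestrict W)), h3,
      Submodule.map_comap_subtype]
  rw [h2] at h
  exact h

/-- an independent family in an image -/
lemma fam_image (W : Submodule K V) [FiniteDimensional K W] (f : V →ₗ[K] V') (k : ℕ)
    (hk : k ≤ finrank K (W.map f)) :
    ∃ x : Fin k → V, (∀ i, x i ∈ W) ∧ LinearIndependent K (fun i => f (x i)) := by
  let bs : Basis (Fin (finrank K (W.map f))) K (W.map f) := Module.finBasis K (W.map f)
  have h1 : LinearIndependent K (fun i => (bs i : V')) :=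
    bs.linearIndependent.map' (W.map f).subtype (Submodule.ker_subtype _)
  have h2 : ∀ i, ∃ x, x ∈ W ∧ f x = (bs (Fin.castLE hk i) : V') := fun i =>
    (bs (Fin.castLE hk i)).2
  choose x hx1 hx2 using h2
  refine ⟨x, hx1, ?_⟩
  have h3 : (fun i => f (x i)) = (fun i => (bs i : V')) ∘ Fin.castLE hk := by
    funext i
    exact hx2 i
  rw [h3]
  exact h1.comp (Fin.castLE hk) (Fin.castLE_injective hk)

/-- the dimension count -/
lemma dim_count (W : Submodule K V) [FiniteDimensional K W] (f : V →ₗ[K] V') (n : ℕ)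
    (x : Fin n → V) (hx : ∀ i, x i ∈ W) (hi : LinearIndependent K (fun i => f (x i))) :
    n + finrank K (W ⊓ LinearMap.ker f : Submodule K V) ≤ finrank K W := by
  have hrn := rank_null W f
  have h1 : LinearIndependent K (fun i => (⟨f (x i), Submodule.mem_map_of_mem (hx i)⟩ : W.map f)) := by
    apply LinearIndependent.of_comp (W.map f).subtype
    exact hi
  have h2 := h1.fintype_card_le_finrank
  rw [Fintype.card_fin] at h2
  omega

end Abstract

/-- the conditions of order `m` at four points -/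
def Lam (m : ℕ) (u v : Fin 4 → K) : R2 K →ₗ[K] (Fin 4 → ℕ → ℕ → K) where
  toFun f l a b := if a + b < m then cof a b (sh (u l) (v l) f) else 0
  map_add' f g := by
    funext l a b
    simp only [Pi.add_apply]
    split_ifs
    · rw [map_add, cof_add]
    · simp
  map_smul' c f := by
    funext l a b
    simp only [Pi.smul_apply, RingHom.id_apply, smul_eq_mul]
    split_ifs
    · rw [map_smul, cof_smul]
    · simp

lemma Lam_apply (m : ℕ) (u v : Fin 4 → K) (f : R2 K) (l : Fin 4) (a b : ℕ) :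
    Lam m u v f l a b = if a + b < m then cof a b (sh (u l) (v l) f) else 0 := rfl

lemma Lam_zero_iff (m : ℕ) (u v : Fin 4 → K) (f : R2 K) :
    Lam m u v f = 0 ↔ ∀ l, sh (u l) (v l) f ∈ Od m := by
  constructor
  · intro h l i j hij
    have h1 := congrFun (congrFun (congrFun h l) i) j
    rw [Lam_apply, if_pos hij] at h1
    exact h1
  · intro h
    funext l a b
    rw [Lam_apply]
    split_ifs with h1
    · exact h l a b h1
    · rfl

/-- the algebra of the leading forms -/
lemma hc_hc (k l : ℕ) (f : R2 K) : hc k (hc l f) = if l = k then hc l f else 0 := by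
  apply ext_cof
  intro a b
  rw [cof_hc, cof_hc]
  by_cases h1 : a + b = k
  · rw [if_pos h1]
    by_cases h2 : l = k
    · subst h2
      rw [if_pos h1, if_pos rfl, cof_hc, if_pos h1]
    · rw [if_neg h2, if_neg, cof_zero]
      omega
  · rw [if_neg h1]
    by_cases h2 : l = k
    · subst h2
      rw [if_pos rfl, cof_hc, if_neg h1]
    · rw [if_neg h2, cof_zero]

lemma hc_zero_of_Od {k M : ℕ} (hk : k < M) {f : R2 K} (hf : f ∈ Od M) : hc k f = 0 := by
  apply ext_cof
  intro a b
  rw [cof_hc, cof_zero]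
  split_ifs with h
  · exact hf a b (by omega)
  · rfl

lemma hc_zero_of_De {k D : ℕ} (hk : D < k) {f : R2 K} (hf : f ∈ De D) : hc k f = 0 := by
  apply ext_cof
  intro a b
  rw [cof_hc, cof_zero]
  split_ifs with h
  · exact hf a b (by omega)
  · rfl

lemma hc_mem_De (k : ℕ) (f : R2 K) {D : ℕ} (h : k ≤ D) : hc k f ∈ De D := by
  intro a b hab
  show cof a b (hc k f) = 0
  rw [cof_hc, if_neg]
  omega

lemma ker_hc (W : Submodule K (R2 K)) (M : ℕ) :
    (W ⊓ Od M) ⊓ LinearMap.ker (hc (K := K) M) = W ⊓ Od (M + 1) := by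
  ext f
  constructor
  · rintro ⟨⟨h1, h2⟩, h3⟩
    refine ⟨h1, ?_⟩
    intro i j hij
    by_cases h : i + j < M
    · exact h2 i j h
    · have h4 : i + j = M := by omega
      have h5 := cof_hc M i j f
      have h6 : hc M f = 0 := h3
      rw [h6, cof_zero, if_pos h4] at h5
      exact h5.symm
  · rintro ⟨h1, h2⟩
    refine ⟨⟨h1, fun i j hij => h2 i j (by omega)⟩, ?_⟩
    exact hc_zero_of_Od (Nat.lt_succ_self M) h2

/-- the scaling identity -/
lemma scale (hSHF : S_SHF) [CharZero K] (m D T : ℕ) (ε : K) (u v : Fin 4 → K) (f : R2 K)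
    (hD : f ∈ De D) (hT : f ∈ Od T) (l : Fin 4) (a b : ℕ) :
    ε ^ (a + b) * Lam m (fun l => ε * u l) (fun l => ε * v l) f l a b =
      ε ^ T * (∑ s ∈ Finset.range (D + 1), ε ^ s * Lam m u v (hc (T + s) f) l a b) := by
  rw [Lam_apply]
  by_cases hab : a + b < m
  · rw [if_pos hab]
    have h2 := (hSHF K).2.2.1 D f ε (u l) (v l) a b hD
    rw [h2]
    have h3 : ∀ s, Lam m u v (hc (T + s) f) l a b = cof a b (sh (u l) (v l) (hc (T + s) f)) := by
      intro s
      rw [Lam_apply, if_pos hab]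
    have h4 : ∑ s ∈ Finset.range (D + 1), ε ^ s * Lam m u v (hc (T + s) f) l a b =
        ∑ s ∈ Finset.range (D + 1), ε ^ s * cof a b (sh (u l) (v l) (hc (T + s) f)) :=
      Finset.sum_congr rfl fun s _ => by rw [h3]
    rw [h4]
    have e1 : ∑ k ∈ Finset.range (D + 1), ε ^ k * cof a b (sh (u l) (v l) (hc k f)) =
        ∑ k ∈ Finset.range (T + (D + 1)), ε ^ k * cof a b (sh (u l) (v l) (hc k f)) := by
      apply Finset.sum_subset
      · intro x hx
        rw [Finset.mem_range] at hx ⊢
        omega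
      · intro x _ hx2
        rw [Finset.mem_range] at hx2
        rw [hc_zero_of_De (by omega) hD, map_zero, cof_zero, mul_zero]
    rw [e1, Finset.sum_range_add, Finset.mul_sum]
    have e2 : ∑ k ∈ Finset.range T, ε ^ k * cof a b (sh (u l) (v l) (hc k f)) = 0 := by
      apply Finset.sum_eq_zero
      intro x hx
      rw [Finset.mem_range] at hx
      rw [hc_zero_of_Od hx hT, map_zero, cof_zero, mul_zero]
    rw [e2, zero_add]
    apply Finset.sum_congr rfl
    intro s _
    rw [pow_add]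
    ring
  · rw [if_neg hab, mul_zero]
    have h4 : ∑ s ∈ Finset.range (D + 1), ε ^ s * Lam m u v (hc (T + s) f) l a b = 0 := by
      apply Finset.sum_eq_zero
      intro s _
      rw [Lam_apply, if_neg hab, mul_zero]
    rw [h4, mul_zero]

/-- independence at `ε` -/
lemma indep_eps (hSHF : S_SHF) [CharZero K] (m D n : ℕ) (ε : K) (hε : ε ≠ 0) (u v : Fin 4 → K)
    (x : Fin n → R2 K) (T : Fin n → ℕ) (hD : ∀ i, x i ∈ De D) (hT : ∀ i, x i ∈ Od (T i))
    (hi : LinearIndependent K (fun i => ∑ s ∈ Finset.range (D + 1),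
      ε ^ s • Lam m u v (hc (T i + s) (x i)))) :
    LinearIndependent K (fun i => Lam m (fun l => ε * u l) (fun l => ε * v l) (x i)) := by
  rw [Fintype.linearIndependent_iff] at hi ⊢
  intro g hg i
  have h1 := hi (fun i => g i * ε ^ (T i)) ?_ i
  · exact (mul_eq_zero.mp h1).resolve_right (pow_ne_zero _ hε)
  · funext l a b
    have h2 := congrFun (congrFun (congrFun hg l) a) b
    simp only [Finset.sum_apply, Pi.smul_apply, smul_eq_mul, Pi.zero_apply] at h2 ⊢
    have h3 : ∑ y, g y * ε ^ T y * (∑ s ∈ Finset.range (D + 1),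
        ε ^ s * Lam m u v (hc (T y + s) (x y)) l a b) =
        ε ^ (a + b) * ∑ y, g y * Lam m (fun l => ε * u l) (fun l => ε * v l) (x y) l a b := by
      rw [Finset.mul_sum]
      apply Finset.sum_congr rfl
      intro y _
      have h4 := scale hSHF m D (T y) ε u v (x y) (hD y) (hT y) l a b
      rw [mul_assoc, ← h4]
      ring
    rw [h3, h2, mul_zero]

/-- independence of the leading forms -/
lemma indep_lead {n k m : ℕ} (a : Fin n → R2 K) (ta : Fin n → ℕ) (b : Fin k → R2 K)
    (hta : ∀ i, ta i < 2 * m)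
    (ha : LinearIndependent K (fun i => hc (ta i) (a i)))
    (hb : LinearIndependent K (fun i => hc (2 * m) (b i))) :
    LinearIndependent K (Sum.elim (fun i => hc (ta i) (a i)) (fun i => hc (2 * m) (b i))) := by
  apply LinearIndependent.sum_type ha hb
  rw [Submodule.disjoint_def]
  intro x hx1 hx2
  have h1 : Submodule.span K (Set.range (fun i => hc (ta i) (a i))) ≤
      LinearMap.ker (hc (K := K) (2 * m)) := by
    rw [Submodule.span_le]
    rintro _ ⟨i, rfl⟩
    rw [SetLike.mem_coe, LinearMap.mem_ker, hc_hc, if_neg (hta i).ne]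
  have h2 : Submodule.span K (Set.range (fun i => hc (2 * m) (b i))) ≤
      LinearMap.ker (hc (K := K) (2 * m) - LinearMap.id) := by
    rw [Submodule.span_le]
    rintro _ ⟨i, rfl⟩
    rw [SetLike.mem_coe, LinearMap.mem_ker, LinearMap.sub_apply, LinearMap.id_apply, hc_hc,
      if_pos rfl, sub_self]
  have h3 := h1 hx1
  have h4 := h2 hx2
  rw [LinearMap.mem_ker] at h3
  rw [LinearMap.mem_ker, LinearMap.sub_apply, LinearMap.id_apply, sub_eq_zero] at h4
  rw [← h4, h3]

/-- the four points -/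
lemma four_pts [CharZero K] (m : ℕ) (p0 q0 p1 q1 : K) : ∃ u v : Fin 4 → K, ∀ f : R2 K,
    (∀ l, sh (u l) (v l) f ∈ Od m) →
      ∀ a a' : K, (a = 1 ∨ a = -1) → (a' = 1 ∨ a' = -1) →
        sh (a * p0 + a' * q0) (a * p1 + a' * q1) f ∈ Od m := by
  refine ⟨![1 * p0 + 1 * q0, 1 * p0 + (-1) * q0, (-1) * p0 + 1 * q0, (-1) * p0 + (-1) * q0],
    ![1 * p1 + 1 * q1, 1 * p1 + (-1) * q1, (-1) * p1 + 1 * q1, (-1) * p1 + (-1) * q1], ?_⟩
  intro f hf a a' ha ha'
  rcases ha with rfl | rfl
  · rcases ha' with rfl | rfl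
    · exact hf 0
    · exact hf 1
  · rcases ha' with rfl | rfl
    · exact hf 2
    · exact hf 3

/-- the conditions at the four points are independent on the leading forms -/
lemma indep_Lam (hFOR4 : S_FOR4) (hTRN : S_TRN) [CharZero K] {n k m : ℕ} (hk : k ≤ m)
    (a : Fin n → R2 K) (ta : Fin n → ℕ) (b : Fin k → R2 K) (hta : ∀ i, ta i < 2 * m)
    (ha : LinearIndependent K (fun i => hc (ta i) (a i)))
    (hb : LinearIndependent K (fun i => hc (2 * m) (b i))) :
    ∃ u v : Fin 4 → K, LinearIndependent K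
      (fun i => Lam m u v (Sum.elim (fun i => hc (ta i) (a i)) (fun i => hc (2 * m) (b i)) i)) := by
  obtain ⟨G', hG'⟩ : ∃ G' : Submodule K (R2 K),
    G' = Submodule.span K (Set.range (fun i => hc (2 * m) (b i))) := ⟨_, rfl⟩
  have hG'hc : ∀ g ∈ G', hc (2 * m) g = g := by
    intro g hg
    have h1 : G' ≤ LinearMap.ker (hc (K := K) (2 * m) - LinearMap.id) := by
      rw [hG', Submodule.span_le]
      rintro _ ⟨i, rfl⟩
      rw [SetLike.mem_coe, LinearMap.mem_ker, LinearMap.sub_apply, LinearMap.id_apply, hc_hc,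
        if_pos rfl, sub_self]
    have h2 := h1 hg
    rw [LinearMap.mem_ker, LinearMap.sub_apply, LinearMap.id_apply, sub_eq_zero] at h2
    exact h2
  have hG'fd : FiniteDimensional K G' := by
    rw [hG']
    exact FiniteDimensional.span_of_finite K (Set.finite_range _)
  have hG'r : finrank K G' ≤ m := by
    have h1 : finrank K G' ≤ Fintype.card (Fin k) := by
      rw [hG']
      exact finrank_range_le_card _
    rw [Fintype.card_fin] at h1
    omega
  obtain ⟨p0, q0, p1, q1, hdet, hpq⟩ := hTRN K m G' hG'hc hG'fd hG'r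
  obtain ⟨u, v, huv⟩ := four_pts m p0 q0 p1 q1
  refine ⟨u, v, ?_⟩
  apply (indep_lead a ta b hta ha hb).map (f := Lam m u v)
  rw [Submodule.disjoint_def]
  intro h hh1 hh2
  rw [LinearMap.mem_ker, Lam_zero_iff] at hh2
  obtain ⟨k1, k2⟩ := hFOR4 K m h p0 q0 p1 q1 hdet (huv h hh2)
  have hDe : h ∈ De (2 * m) := by
    have h2 : Submodule.span K (Set.range (Sum.elim (fun i => hc (ta i) (a i))
        (fun i => hc (2 * m) (b i)))) ≤ De (2 * m) := by
      rw [Submodule.span_le]
      rintro _ ⟨i | i, rfl⟩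
      · exact hc_mem_De _ _ (hta i).le
      · exact hc_mem_De _ _ le_rfl
    exact h2 hh1
  have hGm : hc (2 * m) h ∈ G' := by
    have h2 : Submodule.span K (Set.range (Sum.elim (fun i => hc (ta i) (a i))
        (fun i => hc (2 * m) (b i)))) ≤ G'.comap (hc (2 * m)) := by
      rw [Submodule.span_le]
      rintro _ ⟨i | i, rfl⟩
      · rw [SetLike.mem_coe, Submodule.mem_comap, Sum.elim_inl, hc_hc, if_neg (hta i).ne]
        exact G'.zero_mem
      · rw [SetLike.mem_coe, Submodule.mem_comap, Sum.elim_inr, hc_hc, if_pos rfl, hG']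
        exact Submodule.subset_span ⟨i, rfl⟩
    exact h2 hh1
  have hz : hc (2 * m) h = 0 := hpq _ hGm (k1 hDe)
  apply k2
  intro i j hij
  by_cases h4 : i + j = 2 * m
  · have h5 := cof_hc (2 * m) i j h
    rw [hz, cof_zero, if_pos h4] at h5
    exact h5.symm
  · exact hDe i j (by omega)

theorem t (hSEM : S_SEM) (hSHF : S_SHF) (hFOR4 : S_FOR4) (hTRN : S_TRN) (hFAM : S_FAM) : S_G1R := by
  intro K _ _ W m N hW hB hA
  -- the family of low order
  obtain ⟨n0, v0, t0, hn0, hv0, hi0⟩ := hFAM K W (2 * m) hW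
  have fdA : FiniteDimensional K (W ⊓ Od (2 * m) : Submodule K (R2 K)) :=
    Submodule.finiteDimensional_of_le inf_le_left
  have hGr := rank_null (W ⊓ Od (2 * m)) (hc (K := K) (2 * m))
  rw [ker_hc] at hGr
  obtain ⟨g', hg'⟩ : ∃ g', g' = min (finrank K ((W ⊓ Od (2 * m)).map (hc (K := K) (2 * m)))) m :=
    ⟨_, rfl⟩
  have hg1 : g' ≤ finrank K ((W ⊓ Od (2 * m)).map (hc (K := K) (2 * m))) := by
    rw [hg']; exact min_le_left _ _
  have hg2 : g' ≤ m := by rw [hg']; exact min_le_right _ _
  have hg3 : finrank K (W ⊓ Od (2 * m) : Submodule K (R2 K)) ≤ N + g' := by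
    rcases le_total (finrank K ((W ⊓ Od (2 * m)).map (hc (K := K) (2 * m)))) m with h | h
    · rw [min_eq_left h] at hg'; omega
    · rw [min_eq_right h] at hg'; omega
  obtain ⟨v1, hv1, hi1⟩ := fam_image (W ⊓ Od (2 * m)) (hc (K := K) (2 * m)) g' hg1
  obtain ⟨u, v, huv⟩ := indep_Lam hFOR4 hTRN hg2 v0 t0 v1 (fun i => (hv0 i).2.2) hi0 hi1
  -- the whole family
  obtain ⟨ee, -⟩ : ∃ ee : Fin (n0 + g') ≃ Fin n0 ⊕ Fin g', True := ⟨finSumFinEquiv.symm, trivial⟩
  obtain ⟨vv, hvv⟩ : ∃ vv : Fin (n0 + g') → R2 K, vv = fun i => Sum.elim v0 v1 (ee i) := ⟨_, rfl⟩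
  obtain ⟨tt, htt⟩ : ∃ tt : Fin (n0 + g') → ℕ, tt = fun i => Sum.elim t0 (fun _ => 2 * m) (ee i) :=
    ⟨_, rfl⟩
  have hhc : (fun i => Lam m u v (hc (tt i + 0) (vv i))) =
      (fun i => Lam m u v (Sum.elim (fun i => hc (t0 i) (v0 i)) (fun i => hc (2 * m) (v1 i)) i)) ∘ ee := by
    funext i
    rw [hvv, htt]
    simp only [Function.comp, add_zero]
    rcases ee i with j | j <;> rfl
  have hind : LinearIndependent K (fun i => Lam m u v (hc (tt i + 0) (vv i))) := by
    rw [hhc]
    exact huv.comp ee ee.injective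
  have hvvW : ∀ i, vv i ∈ W := by
    intro i
    rw [hvv]
    show Sum.elim v0 v1 (ee i) ∈ W
    rcases ee i with j | j
    · exact (hv0 j).1
    · exact (hv1 j).1
  have hvvO : ∀ i, vv i ∈ Od (tt i) := by
    intro i
    rw [hvv, htt]
    show Sum.elim v0 v1 (ee i) ∈ Od (Sum.elim t0 (fun _ => 2 * m) (ee i))
    rcases ee i with j | j
    · exact (hv0 j).2.1
    · exact (hv1 j).2
  obtain ⟨D, hD⟩ := exists_De_fam vv
  obtain ⟨ε, hε, hεi⟩ := hSEM K (Fin 4 → ℕ → ℕ → K) (n0 + g') D
    (fun i s => Lam m u v (hc (tt i + s) (vv i))) hind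
  refine ⟨fun l => ε * u l, fun l => ε * v l, ?_⟩
  have hLi := indep_eps hSHF m D (n0 + g') ε hε u v vv tt hD hvvO hεi
  have hk : (W ⊓ ⨅ l, (Od m).comap (sh (ε * u l) (ε * v l)).toLinearMap : Submodule K (R2 K)) =
      W ⊓ LinearMap.ker (Lam m (fun l => ε * u l) (fun l => ε * v l)) := by
    congr 1
    ext f
    rw [LinearMap.mem_ker, Lam_zero_iff, Submodule.mem_iInf]
    rfl
  show finrank K (W ⊓ ⨅ l, (Od m).comap (sh (ε * u l) (ε * v l)).toLinearMap : Submodule K (R2 K)) ≤ N
  rw [hk]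
  have hdc := dim_count W (Lam m (fun l => ε * u l) (fun l => ε * v l)) (n0 + g') vv hvvW hLi
  omega

end Pool.Agent.Helper62.UC.G1R
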