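import Pool.Agent.Helper27.UC.Goals3
import Pool.Agent.Helper62.UC.G1R

set_option autoImplicit false

noncomputable section

namespace Pool.Agent.Helper62.UC.LIFT

open Polynomial Module Pool.Agent.Helper97.Tate Pool.Agent.Helper27.UC Pool.Agent.Helper62.UC.G1R

variable {K : Type} [Field K]

/-- the conditions of order `t + 1` at `(u, v)` -/
def Lt (t : ℕ) (u v : K) : R2 K →ₗ[K] (ℕ → ℕ → K) where
  toFun f a b := if a + b < t + 1 then cof a b (sh u v f) else 0
  map_add' f g := by
    funext a b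
    simp only [Pi.add_apply]
    split_ifs
    · rw [map_add, cof_add]
    · simp
  map_smul' c f := by
    funext a b
    simp only [Pi.smul_apply, RingHom.id_apply, smul_eq_mul]
    split_ifs
    · rw [map_smul, cof_smul]
    · simp

lemma Lt_apply (t : ℕ) (u v : K) (f : R2 K) (a b : ℕ) :
    Lt t u v f a b = if a + b < t + 1 then cof a b (sh u v f) else 0 := rfl

lemma ker_Lt (t : ℕ) (u v : K) :
    LinearMap.ker (Lt t u v) = (Od (t + 1)).comap (sh u v).toLinearMap := by
  ext f
  rw [LinearMap.mem_ker, Submodule.mem_comap]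
  constructor
  · intro h i j hij
    have h1 := congrFun (congrFun h i) j
    rw [Lt_apply, if_pos hij] at h1
    exact h1
  · intro h
    funext a b
    rw [Lt_apply]
    split_ifs with h1
    · exact h a b h1
    · rfl

lemma cof_sh_monomial (u v c : K) (a b i j : ℕ) :
    cof i j (sh u v (Polynomial.monomial b (Polynomial.monomial a c) : R2 K)) =
      c * (u ^ (a - i) * (a.choose i)) * (v ^ (b - j) * (b.choose j)) := by
  have h1 : sh u v (Polynomial.monomial b (Polynomial.monomial a c) : R2 K) =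
      C (C c * (X + C u) ^ a) * (X + C (C v)) ^ b := by
    have h3 : sh u v (Polynomial.monomial b (Polynomial.monomial a c) : R2 K) =
        Polynomial.eval₂ (Polynomial.aeval (C X + C (C u) : R2 K) : Polynomial K →ₐ[K] R2 K).toRingHom
          (X + C (C v)) (Polynomial.monomial b (Polynomial.monomial a c)) := rfl
    rw [h3, Polynomial.eval₂_monomial]
    have h2 : (Polynomial.aeval (C X + C (C u) : R2 K) : Polynomial K →ₐ[K] R2 K).toRingHom
        (Polynomial.monomial a c) = C (C c * (X + C u) ^ a) := by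
      show (Polynomial.aeval (C X + C (C u) : R2 K)) (Polynomial.monomial a c) = _
      rw [Polynomial.aeval_monomial, ← C_add, ← C_pow, C_mul]
      rfl
    rw [h2]
  rw [h1]
  unfold cof
  rw [Polynomial.coeff_C_mul, Polynomial.coeff_X_add_C_pow, mul_assoc, Polynomial.coeff_C_mul,
    ← C_pow, ← Polynomial.C_eq_natCast, ← C_mul, Polynomial.coeff_mul_C,
    Polynomial.coeff_X_add_C_pow]
  ring

lemma deriv_sh (u v : K) (f : R2 K) (i j : ℕ) :
    cof i j (sh u v (hc (i + j + 1) f)) =
      u * (i + 1) * cof (i + 1) j f + v * (j + 1) * cof i (j + 1) f := by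
  have h0 : hc (i + j + 1) f = ∑ b ∈ Finset.range (i + j + 1 + 1),
    Polynomial.monomial b (Polynomial.monomial (i + j + 1 - b) (cof (i + j + 1 - b) b f)) := rfl
  rw [h0, map_sum, cof_sum]
  simp only [cof_sh_monomial]
  rw [Finset.sum_eq_add_of_mem j (j + 1)]
  · have e1 : i + j + 1 - j = i + 1 := by omega
    have e2 : i + j + 1 - (j + 1) = i := by omega
    rw [e1, e2, Nat.add_sub_cancel_left, Nat.sub_self, Nat.sub_self, Nat.add_sub_cancel_left,
      Nat.choose_self, Nat.choose_self, Nat.choose_succ_self_right, Nat.choose_succ_self_right]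
    push_cast
    ring
  · rw [Finset.mem_range]; omega
  · rw [Finset.mem_range]; omega
  · omega
  · intro b hb hb'
    rw [Finset.mem_range] at hb
    by_cases h : b < j
    · rw [Nat.choose_eq_zero_of_lt h]
      simp
    · have h2 : i + j + 1 - b < i := by omega
      rw [Nat.choose_eq_zero_of_lt h2]
      simp

/-- the coefficients of the expansion in `ε` -/
def Pc (t : ℕ) (u v : K) (h : R2 K) (s : ℕ) : ℕ → ℕ → K := fun i j =>
  if i + j < t + 1 then cof i j (sh u v (hc (i + j + s) h)) else 0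

lemma expand (hSHF : S_SHF) [CharZero K] (t D : ℕ) (u v ε : K) (hε : ε ≠ 0) (h : R2 K)
    (hD : h ∈ De D) : ∑ s ∈ Finset.range (D + 1), ε ^ s • Pc t u v h s = Lt t (ε * u) (ε * v) h := by
  funext i j
  simp only [Finset.sum_apply, Pi.smul_apply, smul_eq_mul]
  rw [Lt_apply]
  by_cases hij : i + j < t + 1
  · rw [if_pos hij]
    have h1 : ∀ s, Pc t u v h s i j = cof i j (sh u v (hc (i + j + s) h)) := by
      intro s
      unfold Pc
      rw [if_pos hij]
    simp only [h1]
    have h2 := (hSHF K).2.2.1 D h ε u v i j hD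
    have e1 : ∑ k ∈ Finset.range (D + 1), ε ^ k * cof i j (sh u v (hc k h)) =
        ∑ k ∈ Finset.range (i + j + (D + 1)), ε ^ k * cof i j (sh u v (hc k h)) := by
      apply Finset.sum_subset
      · intro x hx
        rw [Finset.mem_range] at hx ⊢
        omega
      · intro x _ hx2
        rw [Finset.mem_range] at hx2
        rw [hc_zero_of_De (by omega) hD, map_zero, cof_zero, mul_zero]
    rw [e1, Finset.sum_range_add] at h2
    have e2 : ∑ k ∈ Finset.range (i + j), ε ^ k * cof i j (sh u v (hc k h)) = 0 := by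
      apply Finset.sum_eq_zero
      intro x hx
      rw [Finset.mem_range] at hx
      have h3 := ((hSHF K).2.2.2.2.2.2.1 x (hc x h) u v (hc_mem_De x h le_rfl)).1 i j hx
      rw [h3, mul_zero]
    rw [e2, zero_add] at h2
    have h4 : ε ^ (i + j) * cof i j (sh (ε * u) (ε * v) h) =
        ε ^ (i + j) * ∑ s ∈ Finset.range (D + 1), ε ^ s * cof i j (sh u v (hc (i + j + s) h)) := by
      rw [h2, Finset.mul_sum]
      apply Finset.sum_congr rfl
      intro s _
      rw [pow_add]
      ring
    exact (mul_left_cancel₀ (pow_ne_zero _ hε) h4).symm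
  · rw [if_neg hij]
    apply Finset.sum_eq_zero
    intro s _
    unfold Pc
    rw [if_neg hij, mul_zero]

lemma Pc_zero (hSHF : S_SHF) [CharZero K] (t : ℕ) (u v : K) (h : R2 K) :
    Pc t u v h 0 = Lt t 0 0 h := by
  funext i j
  rw [Lt_apply, (hSHF K).2.1]
  unfold Pc
  split_ifs with h1
  · rw [add_zero, ((hSHF K).2.2.2.2.2.2.1 (i + j) (hc (i + j) h) u v
      (hc_mem_De _ h le_rfl)).2 i j rfl, cof_hc, if_pos rfl]
  · rfl

lemma De_mono {D D' : ℕ} (h : D ≤ D') {f : R2 K} (hf : f ∈ De D) : f ∈ De D' := by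
  intro i j hij
  exact hf i j (by omega)

theorem t (hSEM : S_SEM) (hSHF : S_SHF) : S_LIFT := by
  intro K _ _ W t hW hmin u v f hf
  obtain ⟨hfW, hfO⟩ := hf
  obtain ⟨y, hy⟩ : ∃ y : ℕ → ℕ → K, y = Pc t u v f 1 := ⟨_, rfl⟩
  have hy' : ∀ i j, i + j < t + 1 →
      y i j = u * (i + 1) * cof (i + 1) j f + v * (j + 1) * cof i (j + 1) f := by
    intro i j hij
    rw [hy]
    unfold Pc
    rw [if_pos hij, deriv_sh]
  by_cases hmem : y ∈ W.map (Lt t 0 0)
  · rw [Submodule.mem_map] at hmem
    obtain ⟨f', hf'W, hf'⟩ := hmem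
    have h1 : ∀ i j, i + j < t + 1 →
        cof i j f' = u * (i + 1) * cof (i + 1) j f + v * (j + 1) * cof i (j + 1) f := by
      intro i j hij
      rw [← hy' i j hij, ← hf', Lt_apply, if_pos hij, (hSHF K).2.1]
    refine ⟨f', ⟨hf'W, ?_⟩, fun i j hij => h1 i j (by omega)⟩
    intro i j hij
    rw [h1 i j (by omega), hfO (i + 1) j (by omega), hfO i (j + 1) (by omega)]
    ring
  · exfalso
    obtain ⟨r, hr⟩ : ∃ r, r = finrank K (W.map (Lt t 0 0)) := ⟨_, rfl⟩
    obtain ⟨x, hxW, hxi⟩ := fam_image W (Lt t (0 : K) 0) r hr.le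
    obtain ⟨D0, hD0⟩ := exists_De_fam x
    obtain ⟨D1, hD1⟩ := exists_De f
    obtain ⟨D, hDd⟩ : ∃ D, D = D0 + D1 := ⟨_, rfl⟩
    have hDx : ∀ i, x i ∈ De D := fun i => De_mono (by omega) (hD0 i)
    have hDf : f ∈ De D := De_mono (by omega) hD1
    -- the family
    obtain ⟨c, hc⟩ : ∃ c : Fin (r + 1) → ℕ → (ℕ → ℕ → K),
      c = Fin.cons (fun s => Pc t u v f (s + 1)) (fun i s => Pc t u v (x i) s) := ⟨_, rfl⟩
    have hc0 : (fun i => c i 0) = Fin.cons y (fun i => Lt t 0 0 (x i)) := by
      funext i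
      rw [hc]
      refine Fin.cases ?_ (fun i => ?_) i
      · rw [Fin.cons_zero, Fin.cons_zero, hy]
      · rw [Fin.cons_succ, Fin.cons_succ, Pc_zero hSHF]
    have hci : LinearIndependent K (fun i => c i 0) := by
      rw [hc0, linearIndependent_finCons]
      refine ⟨hxi, fun h => hmem ?_⟩
      refine (Submodule.span_le.mpr ?_) h
      rintro _ ⟨i, rfl⟩
      exact Submodule.mem_map_of_mem (hxW i)
    obtain ⟨ε, hε, hεi⟩ := hSEM K (ℕ → ℕ → K) (r + 1) D c hci
    obtain ⟨x', hx'⟩ : ∃ x' : Fin (r + 1) → R2 K, x' = Fin.cons f x := ⟨_, rfl⟩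
    have hx'W : ∀ i, x' i ∈ W := by
      intro i
      rw [hx']
      refine Fin.cases ?_ (fun i => ?_) i
      · rw [Fin.cons_zero]; exact hfW
      · rw [Fin.cons_succ]; exact hxW i
    -- the value at `ε`
    have hP0 : Pc t u v f 0 = 0 := by
      rw [Pc_zero hSHF]
      funext i j
      rw [Lt_apply, (hSHF K).2.1]
      split_ifs with h1
      · exact hfO i j h1
      · rfl
    have hval : ∀ i, ∃ a : K, a ≠ 0 ∧ Lt t (ε * u) (ε * v) (x' i) =
        a • ∑ s ∈ Finset.range (D + 1), ε ^ s • c i s := by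
      intro i
      rw [hx', hc]
      refine Fin.cases ?_ (fun i => ?_) i
      · refine ⟨ε, hε, ?_⟩
        rw [Fin.cons_zero, Fin.cons_zero,
          ← expand hSHF t (D + 1) u v ε hε f (De_mono (Nat.le_succ D) hDf),
          Finset.sum_range_succ', hP0, smul_zero, add_zero, Finset.smul_sum]
        apply Finset.sum_congr rfl
        intro s _
        rw [smul_smul, pow_succ, mul_comm]
      · refine ⟨1, one_ne_zero, ?_⟩
        rw [Fin.cons_succ, Fin.cons_succ, one_smul, expand hSHF t D u v ε hε (x i) (hDx i)]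
    choose a ha0 ha using hval
    have hLi : LinearIndependent K (fun i => Lt t (ε * u) (ε * v) (x' i)) := by
      rw [Fintype.linearIndependent_iff] at hεi ⊢
      intro g hg i
      have h1 := hεi (fun i => g i * a i) ?_ i
      · exact (mul_eq_zero.mp h1).resolve_right (ha0 i)
      · rw [← hg]
        apply Finset.sum_congr rfl
        intro i _
        rw [ha i, smul_smul]
    have hdc := dim_count W (Lt t (ε * u) (ε * v)) (r + 1) x' hx'W hLi
    have hrn := rank_null W (Lt t (0 : K) 0)
    have hk0 : LinearMap.ker (Lt t (0 : K) 0) = Od (t + 1) := by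
      rw [ker_Lt]
      ext g
      rw [Submodule.mem_comap]
      show sh 0 0 g ∈ Od (t + 1) ↔ g ∈ Od (t + 1)
      rw [(hSHF K).2.1]
    rw [hk0, ← hr] at hrn
    rw [ker_Lt] at hdc
    have hm := hmin (ε * u) (ε * v)
    omega

end Pool.Agent.Helper62.UC.LIFT
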