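import Pool.Agent.Helper27.UC.Goals8

set_option autoImplicit false

noncomputable section

namespace Pool.Agent.Helper62.UC.EM3

open Module Pool.Agent.Helper27.UC

/-- the tagged list -/
def TT (Th Tl P : Multiset (ℕ × ℕ)) : Multiset ((ℕ × ℕ) × ℕ) :=
  Th.map (fun p => ((2, p.1), p.2)) + Tl.map (fun p => ((1, p.1), p.2)) +
    P.map (fun p => ((0, p.1), p.2))

lemma TT_fst (Th Tl P : Multiset (ℕ × ℕ)) :
    (TT Th Tl P).map Prod.fst = (Th.map Prod.fst).map (fun v => (2, v)) +
      (Tl.map Prod.fst).map (fun v => (1, v)) + (P.map Prod.fst).map (fun v => (0, v)) := by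
  unfold TT
  simp only [Multiset.map_add, Multiset.map_map, Function.comp_def]

lemma TT_snd (Th Tl P : Multiset (ℕ × ℕ)) :
    (TT Th Tl P).map Prod.snd = Th.map Prod.snd + Tl.map Prod.snd + P.map Prod.snd := by
  unfold TT
  simp only [Multiset.map_add, Multiset.map_map, Function.comp_def]

lemma TT_wt (Th Tl P : Multiset (ℕ × ℕ)) :
    ((TT Th Tl P).map fun p => (2 ^ p.1.1 * p.1.2) * p.2).sum = wt Th Tl P := by
  unfold TT wt
  simp only [Multiset.map_add, Multiset.map_map, Function.comp_def, Multiset.sum_add]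
  norm_num

lemma cnt (j v : ℕ) (s : Multiset ℕ) : (s.map fun v => (j, v)).count (j, v) = s.count v := by
  have : Function.Injective (fun v : ℕ => (j, v)) := fun a b h => (Prod.mk.inj h).2
  exact Multiset.count_map_eq_count' _ _ this v

lemma cnt0 (j i v : ℕ) (s : Multiset ℕ) (h : i ≠ j) : (s.map fun v => (j, v)).count (i, v) = 0 := by
  rw [Multiset.count_eq_zero]
  intro h1
  obtain ⟨w, -, hw⟩ := Multiset.mem_map.1 h1
  exact h (Prod.mk.inj hw).1.symm

lemma Dle (P : Multiset (ℕ × ℕ)) (hP : ∀ p ∈ P, p.2 ≤ p.1) :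
    (P.map fun p => p.2 ^ 2).sum ≤ (P.map fun p => p.1 ^ 2).sum ∧
    (P.map fun p => p.1 ^ 2).sum ≤
      (P.map fun p => p.2 ^ 2).sum + 2 * (P.map fun p => p.1 * (p.1 - p.2)).sum := by
  induction P using Multiset.induction_on with
  | empty => simp
  | cons p P ih =>
    have h1 := ih fun q hq => hP q (Multiset.mem_cons_of_mem hq)
    have h2 := hP p (Multiset.mem_cons_self p P)
    simp only [Multiset.map_cons, Multiset.sum_cons]
    obtain ⟨e, he⟩ := Nat.exists_eq_add_of_le h2
    have h3 : p.1 - p.2 = e := by omega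
    rw [h3, he]
    constructor
    · nlinarith [h1.1]
    · nlinarith [h1.2]

theorem t (hG : S_EMG) (hB : S_HEB) : S_EM3 := by
  intro c Q M d h l P Th Tl hE hd hTh hTl hw
  obtain ⟨-, b2, -⟩ := hB c Q M h l P hE
  obtain ⟨hc, hQ, hM, eh, el, eP, ch, cl, cP, hM0, -, -, eS⟩ := hE
  set T := TT Th Tl P with hT
  set J := T.map Prod.fst with hJ
  have hJ' : J = h.map (fun v => (2, v)) + l.map (fun v => (1, v)) +
      (P.map Prod.fst).map (fun v => (0, v)) := by
    rw [hJ, hT, TT_fst, hTh, hTl]
  have hQ0 : 0 < Q := by omega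
  -- D
  set D := ∑ i ∈ J.toFinset, J.count i * (2 ^ i.1 * i.2) ^ 2 with hD
  have hD' : D = 16 * (h.map fun v => v ^ 2).sum + 4 * (l.map fun v => v ^ 2).sum +
      (P.map fun p => p.1 ^ 2).sum := by
    have h1 := Finset.sum_multiset_map_count J (fun i : ℕ × ℕ => (2 ^ i.1 * i.2) ^ 2)
    simp only [smul_eq_mul] at h1
    rw [hD, ← h1, hJ']
    simp only [Multiset.map_add, Multiset.map_map, Function.comp_def, Multiset.sum_add]
    congr 1
    · congr 1
      · rw [← Multiset.sum_map_mul_left]
        congr 1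
        apply Multiset.map_congr rfl
        intro v _
        ring
      · rw [← Multiset.sum_map_mul_left]
        congr 1
        apply Multiset.map_congr rfl
        intro v _
        ring
    · congr 1
      apply Multiset.map_congr rfl
      intro v _
      ring
  obtain ⟨d1, d2⟩ := Dle P fun p hp => (eP p hp).2.1
  have hQ' : Q = 16 * (h.map fun v => v ^ 2).sum + 4 * (l.map fun v => v ^ 2).sum +
      (P.map fun p => p.2 ^ 2).sum := hQ
  have D1 : Q ≤ D := by omega
  have D2 : 200 * D ≤ 200 * Q + M := by omega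
  have D3 : D ≤ 2 * Q := by omega
  have key := hG (ℕ × ℕ) d (20 * c) D J.toFinset (fun i => 2 ^ i.1 * i.2) (fun i => J.count i) T
    ?_ ?_ ?_ ?_ ?_ ?_ hD ?_
  · rw [hT, TT_snd] at key
    exact key
  · -- nonempty
    rw [Finset.nonempty_iff_ne_empty]
    intro h0
    have h1 : J = 0 := by
      rwa [Multiset.toFinset_eq_empty] at h0
    have h2 : D = 0 := by
      rw [hD, h1]; simp
    omega
  · intro p hp
    rw [Multiset.mem_toFinset]
    exact Multiset.mem_map_of_mem _ hp
  · intro i _
    rw [hJ, Multiset.count_map]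
    congr 1
    apply Multiset.filter_congr
    intro x _
    exact eq_comm
  · omega
  · -- cards
    have h1 : J.toFinset.card ≤ c ^ 2 + c ^ 2 + c ^ 2 := by
      rw [hJ', Multiset.toFinset_add, Multiset.toFinset_add]
      refine (Finset.card_union_le _ _).trans (Nat.add_le_add ((Finset.card_union_le _ _).trans
        (Nat.add_le_add ?_ ?_)) ?_)
      · rw [Multiset.toFinset_map]
        exact Finset.card_image_le.trans ch
      · rw [Multiset.toFinset_map]
        exact Finset.card_image_le.trans cl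
      · rw [Multiset.toFinset_map]
        exact Finset.card_image_le.trans cP
    obtain ⟨e, he⟩ := Nat.exists_eq_add_of_le hc
    have h2 : 20 * c - 1 = 20 * e + 19 := by omega
    have h3 : 20 * c - 2 = 20 * e + 18 := by omega
    rw [h2, h3]
    have h4 : c = 1 + e := he
    rw [h4] at h1
    nlinarith
  · -- rows
    intro i hi
    rw [Multiset.mem_toFinset, hJ', Multiset.mem_add, Multiset.mem_add] at hi
    have fin : ∀ (a N : ℕ), 0 < a → (20 * c * a) ^ 2 ≤ Q → 2 * Q ≤ (20 * c * (N * a)) ^ 2 →
        0 < a ∧ 2 ≤ N ∧ (20 * c * a) ^ 2 ≤ D ∧ D ≤ (20 * c * (N * a)) ^ 2 := by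
      intro a N ha h1 h2
      refine ⟨ha, ?_, h1.trans D1, D3.trans h2⟩
      by_contra h3
      have h4 : N ≤ 1 := by omega
      have h5 : N * a ≤ a := by nlinarith
      have h6 : (20 * c * (N * a)) ^ 2 ≤ (20 * c * a) ^ 2 :=
        Nat.pow_le_pow_left (Nat.mul_le_mul le_rfl h5) 2
      omega
    rcases hi with (hi | hi) | hi
    · obtain ⟨v, hv, rfl⟩ := Multiset.mem_map.1 hi
      obtain ⟨e1, e2, e3⟩ := eh v hv
      have hN : J.count (2, v) = h.count v := by
        rw [hJ', Multiset.count_add, Multiset.count_add, cnt, cnt0 1 2 _ _ (by decide),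
          cnt0 0 2 _ _ (by decide), add_zero, add_zero]
      have := fin (4 * v) (h.count v) (by omega) (le_trans (by
        have : 20 * c * (4 * v) ≤ 100 * c * v := by nlinarith [Nat.zero_le (c * v)]
        exact Nat.pow_le_pow_left this 2) e2) (by
        have : h.count v * (4 * v) = 4 * v * h.count v := mul_comm _ _
        rw [this]; exact e3)
      simp only [hN]
      exact this
    · obtain ⟨v, hv, rfl⟩ := Multiset.mem_map.1 hi
      obtain ⟨e1, e2, e3⟩ := el v hv
      have hN : J.count (1, v) = l.count v := by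
        rw [hJ', Multiset.count_add, Multiset.count_add, cnt0 2 1 _ _ (by decide), cnt,
          cnt0 0 1 _ _ (by decide), add_zero, zero_add]
      have := fin (2 * v) (l.count v) (by omega) (le_trans (by
        have : 20 * c * (2 * v) ≤ 100 * c * v := by nlinarith [Nat.zero_le (c * v)]
        exact Nat.pow_le_pow_left this 2) e2) (by
        have : l.count v * (2 * v) = 2 * v * l.count v := mul_comm _ _
        rw [this]; exact e3)
      simp only [hN]
      exact this
    · obtain ⟨v, hv, rfl⟩ := Multiset.mem_map.1 hi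
      obtain ⟨p, hp, rfl⟩ := Multiset.mem_map.1 hv
      obtain ⟨e1, e0, e2, e3⟩ := eP p hp
      have hN : J.count (0, p.1) = (P.map Prod.fst).count p.1 := by
        rw [hJ', Multiset.count_add, Multiset.count_add, cnt0 2 0 _ _ (by decide),
          cnt0 1 0 _ _ (by decide), cnt, add_zero, zero_add]
      have := fin p.1 ((P.map Prod.fst).count p.1) (by omega) (le_trans (by
        have : 20 * c * p.1 ≤ 100 * c * p.1 := by nlinarith [Nat.zero_le (c * p.1)]
        exact Nat.pow_le_pow_left this 2) e2) (by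
        rw [mul_comm ((P.map Prod.fst).count p.1)]; exact e3)
      simp only [hN, pow_zero, one_mul]
      exact this
  · -- the last inequality
    have hwt : (T.map fun p => (2 ^ p.1.1 * p.1.2) * p.2).sum = wt Th Tl P := TT_wt Th Tl P
    show D * d ^ 2 < ((T.map fun p => (2 ^ p.1.1 * p.1.2) * p.2).sum) ^ 2
    rw [hwt]
    have hD0 : 0 < D := by omega
    have h1 : d ^ 2 < Q + M := by nlinarith
    have h2 : D * d ^ 2 < D * (Q + M) := Nat.mul_lt_mul_of_pos_left h1 hD0
    have h3 : (20 * Q + 11 * M) ^ 2 ≤ (20 * wt Th Tl P) ^ 2 := Nat.pow_le_pow_left hw 2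
    have h4 : 200 * (D * (Q + M)) ≤ (200 * Q + M) * (Q + M) := by
      calc 200 * (D * (Q + M)) = (200 * D) * (Q + M) := by ring
        _ ≤ _ := Nat.mul_le_mul_right _ D2
    nlinarith

end Pool.Agent.Helper62.UC.EM3
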