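import Pool.Agent.Helper27.UC.Goals4
import Pool.Agent.Helper90.UC.GDR

set_option autoImplicit false

noncomputable section

namespace Pool.Agent.Helper62.UC.EMX

open Module Pool.Agent.Helper27.UC

/-- the sum of the second components over the marked points of the row `l` -/
def FS {α : Type} [DecidableEq α] (l : α) : Multiset (α × ℕ) →+ ℕ where
  toFun T := ((T.filter fun p => p.1 = l).map Prod.snd).sum
  map_zero' := by simp
  map_add' A B := by rw [Multiset.filter_add, Multiset.map_add, Multiset.sum_add]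

/-- the number of the marked points of the row `l` -/
def FC {α : Type} [DecidableEq α] (l : α) : Multiset (α × ℕ) →+ ℕ where
  toFun T := Multiset.card (T.filter fun p => p.1 = l)
  map_zero' := by simp
  map_add' A B := by rw [Multiset.filter_add, Multiset.card_add]

lemma FS_apply {α : Type} [DecidableEq α] (l : α) (T : Multiset (α × ℕ)) :
    FS l T = ((T.filter fun p => p.1 = l).map Prod.snd).sum := rfl

lemma FC_apply {α : Type} [DecidableEq α] (l : α) (T : Multiset (α × ℕ)) :
    FC l T = Multiset.card (T.filter fun p => p.1 = l) := rfl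

lemma FS_rep {α : Type} [DecidableEq α] (l b : α) (n w : ℕ) :
    FS l (Multiset.replicate n (b, w)) = if b = l then n * w else 0 := by
  rw [FS_apply]
  split_ifs with h
  · rw [Multiset.filter_eq_self.2]
    · simp
    · intro p hp
      rw [Multiset.eq_of_mem_replicate hp]
      exact h
  · rw [Multiset.filter_eq_nil.2]
    · simp
    · intro p hp
      rw [Multiset.eq_of_mem_replicate hp]
      exact h

lemma FC_rep {α : Type} [DecidableEq α] (l b : α) (n w : ℕ) :
    FC l (Multiset.replicate n (b, w)) = if b = l then n else 0 := by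
  rw [FC_apply]
  split_ifs with h
  · rw [Multiset.filter_eq_self.2]
    · simp
    · intro p hp
      rw [Multiset.eq_of_mem_replicate hp]
      exact h
  · rw [Multiset.filter_eq_nil.2]
    · simp
    · intro p hp
      rw [Multiset.eq_of_mem_replicate hp]
      exact h

/-- all the marked points -/
lemma sum_FS (V : Finset ℕ) (T : Multiset (ℕ × ℕ)) (hT : ∀ p ∈ T, p.1 ∈ V) :
    ∑ x ∈ V, 2 * (2 * x + 1) * FS x T = (T.map fun p => 2 * (2 * p.1 + 1) * p.2).sum := by
  induction T using Multiset.induction_on with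
  | empty => simp
  | cons p T ih =>
    have h1 := ih fun q hq => hT q (Multiset.mem_cons_of_mem hq)
    have hp := hT p (Multiset.mem_cons_self p T)
    rw [Multiset.map_cons, Multiset.sum_cons, ← h1]
    have h2 : ∀ x, FS x (p ::ₘ T) = (if p.1 = x then p.2 else 0) + FS x T := by
      intro x
      have h3 : p ::ₘ T = Multiset.replicate 1 (p.1, p.2) + T := by
        rw [Multiset.replicate_one, Multiset.singleton_add]
      rw [h3, map_add, FS_rep, one_mul]
    have h4 : ∀ x, 2 * (2 * x + 1) * FS x (p ::ₘ T) =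
        (if p.1 = x then 2 * (2 * x + 1) * p.2 else 0) + 2 * (2 * x + 1) * FS x T := by
      intro x
      rw [h2, Nat.mul_add]
      split_ifs <;> simp
    rw [Finset.sum_congr rfl (fun x _ => h4 x), Finset.sum_add_distrib,
      Finset.sum_ite_eq V p.1 (fun x => 2 * (2 * x + 1) * p.2), if_pos hp]

theorem t (hC : S_CNV) : S_EMX := by
  intro d k D V j s T hV hT hj hk hq h2 hD h3 h5
  classical
  obtain ⟨q, hq0⟩ : ∃ q, q = V.card := ⟨_, rfl⟩
  obtain ⟨e, -⟩ : ∃ e : V ≃ Fin q, True := ⟨V.equivFin.trans (finCongr hq0.symm), trivial⟩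
  have hqpos : 0 < q := by rw [hq0]; exact Finset.card_pos.2 hV
  -- values and rows
  obtain ⟨v, hv⟩ : ∃ v : Fin q → ℕ, v = fun i => ((e.symm i : V) : ℕ) := ⟨_, rfl⟩
  obtain ⟨r, hr⟩ : ∃ r : ℕ → Fin q, r = fun x => if h : x ∈ V then e ⟨x, h⟩ else ⟨0, hqpos⟩ :=
    ⟨_, rfl⟩
  have hvV : ∀ i, v i ∈ V := by
    intro i
    rw [hv]
    exact (e.symm i).2
  have hrv : ∀ x ∈ V, ∀ i, r x = i ↔ x = v i := by
    intro x hx i
    rw [hr, hv]
    simp only [dif_pos hx]
    constructor
    · intro h
      rw [← h, Equiv.symm_apply_apply]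
    · intro h
      have h' : (⟨x, hx⟩ : V) = e.symm i := Subtype.ext h
      rw [h', Equiv.apply_symm_apply]
  have hsum : ∀ {β : Type} [AddCommMonoid β] (F : ℕ → β), ∑ i, F (v i) = ∑ x ∈ V, F x := by
    intro β _ F
    rw [hv, ← Finset.sum_coe_sort V F]
    exact Equiv.sum_comp e.symm (fun x : V => F x)
  -- the marked points
  obtain ⟨φ, hφ⟩ : ∃ φ : ℕ × ℕ → Fin (q + q) × ℕ, φ = fun p => (Fin.castAdd q (r p.1), p.2) :=
    ⟨_, rfl⟩
  obtain ⟨T2, hT2⟩ : ∃ T2 : Multiset (Fin (q + q) × ℕ),
      T2 = ∑ i : Fin q, Multiset.replicate (s (v i)) (Fin.natAdd q i, v i) := ⟨_, rfl⟩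
  have hne : ∀ i i' : Fin q, Fin.castAdd q i ≠ Fin.natAdd q i' := by
    intro i i' h
    have h1 := congrArg Fin.val h
    rw [Fin.val_castAdd, Fin.val_natAdd] at h1
    have := i.2
    omega
  have f1 : ∀ i, (T.map φ).filter (fun p => p.1 = Fin.castAdd q i) =
      (T.filter (fun p => p.1 = v i)).map φ := by
    intro i
    rw [Multiset.filter_map]
    congr 1
    apply Multiset.filter_congr
    intro p hp
    rw [hφ]
    show Fin.castAdd q (r p.1) = Fin.castAdd q i ↔ p.1 = v i
    rw [Fin.castAdd_inj]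
    exact hrv p.1 (hT p hp) i
  have f2 : ∀ i, (T.map φ).filter (fun p => p.1 = Fin.natAdd q i) = 0 := by
    intro i
    rw [Multiset.filter_eq_nil]
    intro p hp
    rw [Multiset.mem_map] at hp
    obtain ⟨p', _, rfl⟩ := hp
    rw [hφ]
    exact hne _ _
  have hφs : ∀ A : Multiset (ℕ × ℕ), (A.map φ).map Prod.snd = A.map Prod.snd := by
    intro A
    rw [Multiset.map_map, hφ]
    rfl
  have g1 : ∀ i, FC (Fin.castAdd q i) (T.map φ) = j (v i) := by
    intro i
    rw [FC_apply, f1, Multiset.card_map, hj (v i) (hvV i)]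
  have g2 : ∀ i, FC (Fin.natAdd q i) (T.map φ) = 0 := by
    intro i
    rw [FC_apply, f2, Multiset.card_zero]
  have g3 : ∀ i, FS (Fin.castAdd q i) (T.map φ) = FS (v i) T := by
    intro i
    rw [FS_apply, f1, hφs, FS_apply]
  have g4 : ∀ i, FS (Fin.natAdd q i) (T.map φ) = 0 := by
    intro i
    rw [FS_apply, f2]
    simp
  have g5 : ∀ i, FC (Fin.castAdd q i) T2 = 0 := by
    intro i
    rw [hT2, map_sum]
    apply Finset.sum_eq_zero
    intro i' _
    rw [FC_rep, if_neg (hne i i').symm]
  have g6 : ∀ i, FC (Fin.natAdd q i) T2 = s (v i) := by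
    intro i
    rw [hT2, map_sum]
    simp only [FC_rep, Fin.natAdd_inj]
    rw [Finset.sum_ite_eq' Finset.univ i, if_pos (Finset.mem_univ i)]
  have g7 : ∀ i, FS (Fin.castAdd q i) T2 = 0 := by
    intro i
    rw [hT2, map_sum]
    apply Finset.sum_eq_zero
    intro i' _
    rw [FS_rep, if_neg (hne i i').symm]
  have g8 : ∀ i, FS (Fin.natAdd q i) T2 = s (v i) * v i := by
    intro i
    rw [hT2, map_sum]
    simp only [FS_rep, Fin.natAdd_inj]
    rw [Finset.sum_ite_eq' Finset.univ i (fun i => s (v i) * v i), if_pos (Finset.mem_univ i)]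
  have hmap : (T.map φ + T2).map Prod.snd = T.map Prod.snd + ∑ x ∈ V, rp (s x) x := by
    rw [Multiset.map_add, hφs, ← hsum (fun x => rp (s x) x), hT2]
    congr 1
    rw [← Multiset.coe_mapAddMonoidHom, map_sum]
    apply Finset.sum_congr rfl
    intro i _
    rw [Multiset.coe_mapAddMonoidHom, Multiset.map_replicate]
  have hDpos : 0 < D := by
    obtain ⟨x, hx⟩ := hV
    have h6 := (h3 x hx).1
    have h7 : 0 < (k * (2 * (2 * x + 1))) ^ 2 := by positivity
    omega
  have key := Pool.Agent.Helper90.UC.emT hC (c := q + q) k d (T.map φ + T2)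
    (Fin.addCases (fun i => 2 * (2 * v i + 1)) (fun i => 2 * v i + 1))
    (Fin.addCases (fun i => j (v i)) (fun i => s (v i)))
    (Fin.addCases (fun i => FS (v i) T) (fun i => s (v i) * v i))
    ?_ ?_ hk ?_ ?_ D hDpos ?_ ?_ ?_ ?_ ?_
  · rw [hmap] at key
    exact key
  · intro l
    refine Fin.addCases (fun i => ?_) (fun i => ?_) l
    · rw [Fin.addCases_left]
      have h6 := map_add (FC (Fin.castAdd q i)) (T.map φ) T2
      rw [g1, g5, add_zero] at h6
      exact h6
    · rw [Fin.addCases_right]
      have h6 := map_add (FC (Fin.natAdd q i)) (T.map φ) T2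
      rw [g2, g6, zero_add] at h6
      exact h6
  · intro l
    refine Fin.addCases (fun i => ?_) (fun i => ?_) l
    · rw [Fin.addCases_left]
      have h6 := map_add (FS (Fin.castAdd q i)) (T.map φ) T2
      rw [g3, g7, add_zero] at h6
      exact h6
    · rw [Fin.addCases_right]
      have h6 := map_add (FS (Fin.natAdd q i)) (T.map φ) T2
      rw [g4, g8, zero_add] at h6
      exact h6
  · rw [← hq0] at hq
    omega
  · intro l
    refine Fin.addCases (fun i => ?_) (fun i => ?_) l
    · rw [Fin.addCases_left]; omega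
    · rw [Fin.addCases_right]; omega
  · rw [Fin.sum_univ_add, hD, ← hsum (fun x => (4 * j x + s x) * (2 * x + 1) ^ 2),
      ← Finset.sum_add_distrib]
    apply Finset.sum_congr rfl
    intro i _
    simp only [Fin.addCases_left, Fin.addCases_right]
    ring
  · intro l
    refine Fin.addCases (fun i => ?_) (fun i => ?_) l
    · rw [Fin.addCases_left]; exact (h2 _ (hvV i)).1
    · rw [Fin.addCases_right]; exact (h2 _ (hvV i)).2
  · intro l
    refine Fin.addCases (fun i => ?_) (fun i => ?_) l
    · rw [Fin.addCases_left]; exact (h3 _ (hvV i)).1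
    · rw [Fin.addCases_right]
      refine le_trans ?_ (h3 _ (hvV i)).1
      apply Nat.pow_le_pow_left
      apply Nat.mul_le_mul_left
      omega
  · intro l
    refine Fin.addCases (fun i => ?_) (fun i => ?_) l
    · rw [Fin.addCases_left, Fin.addCases_left]; exact (h3 _ (hvV i)).2.1
    · rw [Fin.addCases_right, Fin.addCases_right]; exact (h3 _ (hvV i)).2.2
  · rw [Fin.sum_univ_add]
    simp only [Fin.addCases_left, Fin.addCases_right]
    rw [hsum (fun x => 2 * (2 * x + 1) * FS x T), hsum (fun x => (2 * x + 1) * (s x * x)),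
      sum_FS V T hT]
    exact h5

end Pool.Agent.Helper62.UC.EMX
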