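import Pool.Agent.Helper27.UC.Goals5
import Pool.Agent.Helper90.UC.GDR
import Pool.Agent.Helper62.UC.EMX

set_option autoImplicit false

noncomputable section

namespace Pool.Agent.Helper62.UC.EMG

open Module Pool.Agent.Helper27.UC Pool.Agent.Helper62.UC.EMX

/-- all the marked points -/
lemma sum_FSg {ι : Type} [DecidableEq ι] (I : Finset ι) (a : ι → ℕ) (T : Multiset (ι × ℕ))
    (hT : ∀ p ∈ T, p.1 ∈ I) :
    ∑ x ∈ I, a x * FS x T = (T.map fun p => a p.1 * p.2).sum := by
  induction T using Multiset.induction_on with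
  | empty => simp
  | cons p T ih =>
    have h1 := ih fun q hq => hT q (Multiset.mem_cons_of_mem hq)
    have hp := hT p (Multiset.mem_cons_self p T)
    rw [Multiset.map_cons, Multiset.sum_cons, ← h1]
    have h2 : ∀ x, FS x (p ::ₘ T) = (if p.1 = x then p.2 else 0) + FS x T := by
      intro x
      have h3 : p ::ₘ T = Multiset.replicate 1 (p.1, p.2) + T := by
        rw [Multiset.replicate_one, Multiset.singleton_add]
      rw [h3, map_add, FS_rep, one_mul]
    have h4 : ∀ x, a x * FS x (p ::ₘ T) =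
        (if p.1 = x then a x * p.2 else 0) + a x * FS x T := by
      intro x
      rw [h2, Nat.mul_add]
      split_ifs <;> simp
    rw [Finset.sum_congr rfl (fun x _ => h4 x), Finset.sum_add_distrib,
      Finset.sum_ite_eq I p.1 (fun x => a x * p.2), if_pos hp]

theorem t (hC : S_CNV) : S_EMG := by
  intro ι _ d k D I a N T hI hT hN hk hq h2 hD h5
  classical
  obtain ⟨q, hq0⟩ : ∃ q, q = I.card := ⟨_, rfl⟩
  obtain ⟨e, -⟩ : ∃ e : I ≃ Fin q, True := ⟨I.equivFin.trans (finCongr hq0.symm), trivial⟩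
  have hqpos : 0 < q := by rw [hq0]; exact Finset.card_pos.2 hI
  obtain ⟨v, hv⟩ : ∃ v : Fin q → ι, v = fun i => ((e.symm i : I) : ι) := ⟨_, rfl⟩
  obtain ⟨r, hr⟩ : ∃ r : ι → Fin q, r = fun x => if h : x ∈ I then e ⟨x, h⟩ else ⟨0, hqpos⟩ :=
    ⟨_, rfl⟩
  have hvV : ∀ i, v i ∈ I := by
    intro i
    rw [hv]
    exact (e.symm i).2
  have hrv : ∀ x ∈ I, ∀ i, r x = i ↔ x = v i := by
    intro x hx i
    rw [hr, hv]
    simp only [dif_pos hx]
    constructor
    · intro h
      rw [← h, Equiv.symm_apply_apply]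
    · intro h
      have h' : (⟨x, hx⟩ : I) = e.symm i := Subtype.ext h
      rw [h', Equiv.apply_symm_apply]
  have hsum : ∀ F : ι → ℕ, ∑ i, F (v i) = ∑ x ∈ I, F x := by
    intro F
    rw [hv, ← Finset.sum_coe_sort I F]
    exact Equiv.sum_comp e.symm (fun x : I => F x)
  obtain ⟨φ, hφ⟩ : ∃ φ : ι × ℕ → Fin q × ℕ, φ = fun p => (r p.1, p.2) := ⟨_, rfl⟩
  have f1 : ∀ i, (T.map φ).filter (fun p => p.1 = i) =
      (T.filter (fun p => p.1 = v i)).map φ := by
    intro i
    rw [Multiset.filter_map]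
    congr 1
    apply Multiset.filter_congr
    intro p hp
    rw [hφ]
    exact hrv p.1 (hT p hp) i
  have hφs : ∀ A : Multiset (ι × ℕ), (A.map φ).map Prod.snd = A.map Prod.snd := by
    intro A
    rw [Multiset.map_map, hφ]
    rfl
  have hDpos : 0 < D := by
    obtain ⟨x, hx⟩ := hI
    have h6 := (h2 x hx).2.2.1
    have h7 : 0 < a x := (h2 x hx).1
    have h8 : 0 < (k * a x) ^ 2 := by positivity
    omega
  have key := Pool.Agent.Helper90.UC.emT hC (c := q) k d (T.map φ)
    (fun i => a (v i)) (fun i => N (v i)) (fun i => FS (v i) T)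
    ?_ ?_ hk ?_ ?_ D hDpos ?_ ?_ ?_ ?_ ?_
  · rw [hφs] at key
    exact key
  · intro i
    rw [f1, Multiset.card_map]
    exact hN _ (hvV i)
  · intro i
    rw [f1, hφs]
    rfl
  · rw [← hq0] at hq
    exact hq
  · intro i
    exact (h2 _ (hvV i)).1
  · rw [hD, ← hsum (fun x => N x * a x ^ 2)]
  · intro i
    exact (h2 _ (hvV i)).2.1
  · intro i
    exact (h2 _ (hvV i)).2.2.1
  · intro i
    exact (h2 _ (hvV i)).2.2.2
  · rw [hsum (fun x => a x * FS x T), sum_FSg I a T hT]
    exact h5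

end Pool.Agent.Helper62.UC.EMG
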