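import Pool.Agent.Helper27.UC.Goals8

set_option autoImplicit false

namespace Pool.Agent.Helper62.UC.TGQ

open Pool.Agent.Helper27.UC

theorem cfil (T : Multiset (ℕ × ℕ)) (q : ℕ × ℕ → Prop) [DecidablePred q] (x : ℕ) :
    ((T.filter q).map Prod.fst).count x = Multiset.card (T.filter fun a => x = a.1 ∧ q a) := by
  rw [Multiset.count_map, Multiset.filter_filter]

theorem cdiag (T : Multiset (ℕ × ℕ)) (x : ℕ) :
    Multiset.card (T.filter fun a => x = a.1 ∧ a.1 = a.2) = T.count (x, x) := by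
  rw [Multiset.count, Multiset.countP_eq_card_filter]
  congr 1
  apply Multiset.filter_congr
  rintro ⟨a, b⟩ _
  simp only [Prod.mk.injEq]
  constructor
  · rintro ⟨rfl, rfl⟩; exact ⟨rfl, rfl⟩
  · rintro ⟨rfl, h⟩; exact ⟨rfl, h⟩

theorem cR (T : Multiset (ℕ × ℕ)) (F : ℕ × ℕ → Prop) [DecidablePred F] (x : ℕ) (hx : F (x, x)) :
    ((T.filter fun p => p.1 = p.2 ∧ F p).map Prod.fst).count x = T.count (x, x) := by
  rw [cfil, ← cdiag]
  congr 1
  apply Multiset.filter_congr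
  rintro ⟨a, b⟩ _
  dsimp only
  constructor
  · rintro ⟨h1, h2, _⟩; exact ⟨h1, h2⟩
  · rintro ⟨rfl, rfl⟩; exact ⟨rfl, rfl, hx⟩

theorem cR0 (T : Multiset (ℕ × ℕ)) (F : ℕ × ℕ → Prop) [DecidablePred F] (x : ℕ)
    (hx : ¬ F (x, x)) :
    ((T.filter fun p => p.1 = p.2 ∧ F p).map Prod.fst).count x = 0 := by
  rw [cfil, Multiset.card_eq_zero, Multiset.filter_eq_nil]
  rintro ⟨a, b⟩ _ ⟨h1, h2, h3⟩
  dsimp only at h1 h2 h3
  subst h1; subst h2
  exact hx h3

theorem ar (u Q N t : ℕ) (hu : 0 < u) (h1 : (100 * u) ^ 2 ≤ Q) (h2 : 9 * Q ≤ 10 * (u * N) ^ 2)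
    (ht : t = Nat.sqrt (2 * Q) / (20 * u) + 1) :
    2 * t + 7 ≤ N ∧ 2 * Q ≤ (20 * (u * t)) ^ 2 ∧
    ∀ r, r ≤ t + 6 → ((u : ℝ) * r ≤ 0.1408 * Real.sqrt Q) ∧
      ∀ g, N = 4 * g + r → Q ≤ (5 * (u * g)) ^ 2 := by
  obtain ⟨S, hS⟩ : ∃ S, S = Real.sqrt Q := ⟨_, rfl⟩
  have hS0 : 0 ≤ S := by rw [hS]; exact Real.sqrt_nonneg _
  have hSQ : S ^ 2 = Q := by rw [hS]; exact Real.sq_sqrt (Nat.cast_nonneg _)
  have hu' : (1 : ℝ) ≤ u := by exact_mod_cast hu
  have a1 : 100 * (u : ℝ) ≤ S := by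
    have : (100 * (u : ℝ)) ^ 2 ≤ S ^ 2 := by rw [hSQ]; exact_mod_cast h1
    exact abs_le_of_sq_le_sq' this hS0 |>.2
  have a2 : 0.9486 * S ≤ (u : ℝ) * N := by
    have h3 : 9 * S ^ 2 ≤ 10 * ((u : ℝ) * N) ^ 2 := by rw [hSQ]; exact_mod_cast h2
    have h4 : (0.9486 * S) ^ 2 ≤ ((u : ℝ) * N) ^ 2 := by nlinarith
    exact abs_le_of_sq_le_sq' h4 (by positivity) |>.2
  obtain ⟨w, hw⟩ : ∃ w, w = Nat.sqrt (2 * Q) := ⟨_, rfl⟩
  have a3 : (w : ℝ) ≤ 1.4143 * S := by
    have h3 : w * w ≤ 2 * Q := by rw [hw]; exact Nat.sqrt_le _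
    have h4 : (w : ℝ) * w ≤ 2 * Q := by exact_mod_cast h3
    have h5 : (w : ℝ) ^ 2 ≤ (1.4143 * S) ^ 2 := by
      rw [← hSQ] at h4; nlinarith
    exact abs_le_of_sq_le_sq' h5 (by positivity) |>.2
  rw [← hw] at ht
  have a4 : 20 * ((u : ℝ) * t) ≤ w + 20 * u := by
    have h3 : w / (20 * u) * (20 * u) ≤ w := Nat.div_mul_le_self _ _
    have h4 : 20 * (u * t) ≤ w + 20 * u := by
      rw [ht]
      calc 20 * (u * (w / (20 * u) + 1)) = w / (20 * u) * (20 * u) + 20 * u := by ring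
        _ ≤ _ := by omega
    exact_mod_cast h4
  have a5 : (u : ℝ) * t ≤ 0.080715 * S := by linarith
  refine ⟨?_, ?_, ?_⟩
  · have h3 : (u : ℝ) * (2 * t + 7) ≤ u * N := by nlinarith
    have h4 : (2 * t + 7 : ℝ) ≤ N := le_of_mul_le_mul_left h3 (by linarith)
    exact_mod_cast h4
  · have h3 : w < 20 * u * (w / (20 * u) + 1) := Nat.lt_mul_div_succ w (by omega)
    have h4 : 2 * Q < (w + 1) ^ 2 := by rw [hw]; exact Nat.lt_succ_sqrt' _
    refine h4.le.trans (Nat.pow_le_pow_left ?_ 2)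
    rw [ht, ← mul_assoc]
    exact h3
  · intro r hr
    have hr' : (r : ℝ) ≤ t + 6 := by exact_mod_cast hr
    have h3 : (u : ℝ) * r ≤ u * (t + 6) := mul_le_mul_of_nonneg_left hr' (by linarith)
    have h4 : (u : ℝ) * r ≤ 0.1408 * S := by nlinarith
    refine ⟨by rw [← hS]; exact h4, fun g hg => ?_⟩
    have hg' : (N : ℝ) = 4 * g + r := by exact_mod_cast hg
    have h5 : S ≤ 5 * ((u : ℝ) * g) := by
      rw [hg'] at a2
      nlinarith
    have h6 : (Q : ℝ) ≤ (5 * ((u : ℝ) * g)) ^ 2 := by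
      rw [← hSQ]; exact pow_le_pow_left₀ hS0 h5 2
    exact_mod_cast h6

theorem ar2 (z N a b Q : ℕ) (h1 : 10 * (z * N) ^ 2 < 9 * Q) (h2 : Q ≤ (z * (a + b)) ^ 2)
    (h3 : a ≤ N) : a ≤ 19 * b := by
  by_contra h
  have h4 : 19 * (a + b) ≤ 20 * N := by omega
  have h5 : (z * (19 * (a + b))) ^ 2 ≤ (z * (20 * N)) ^ 2 :=
    Nat.pow_le_pow_left (Nat.mul_le_mul_left _ h4) 2
  nlinarith

theorem sumle (L : Multiset ℕ) (c : ℕ) (S : ℝ) (h : ∀ y ∈ L, 100 * (c : ℝ) * y ≤ S) :
    100 * (c : ℝ) * (((L.map fun v => v ^ 2).sum : ℕ) : ℝ) ≤ S * ((L.sum : ℕ) : ℝ) := by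
  induction L using Multiset.induction_on with
  | empty => simp
  | cons y L ih =>
    have h1 := ih fun q hq => h q (Multiset.mem_cons_of_mem hq)
    have h2 := h y (Multiset.mem_cons_self y L)
    simp only [Multiset.map_cons, Multiset.sum_cons]
    push_cast at h1 ⊢
    have h3 : 100 * (c : ℝ) * y * y ≤ S * y := mul_le_mul_of_nonneg_right h2 (Nat.cast_nonneg y)
    nlinarith

theorem sum_mono {A B : Multiset ℕ} (h : A ≤ B) : A.sum ≤ B.sum := by
  obtain ⟨C, rfl⟩ := Multiset.le_iff_exists_add.1 h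
  rw [Multiset.sum_add]; omega

theorem t (hs : S_SPLT) : S_TGQ := by
  intro c Q M T hc hQ hM hM0 hp hcard hW
  have hT0 : ∃ p, p ∈ T := by
    by_contra h
    push Not at h
    rw [Multiset.eq_zero_of_forall_notMem h] at hM
    simp at hM
    omega
  have hQ0 : 0 < Q := by
    obtain ⟨p, hp0⟩ := hT0
    obtain ⟨e1, e2, e3, -⟩ := hp p hp0
    have h1 : 0 < 100 * c * p.1 := by
      have : 0 < p.1 := by omega
      positivity
    have := pow_pos h1 2
    omega
  obtain ⟨S, hS⟩ : ∃ S, S = Real.sqrt Q := ⟨_, rfl⟩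
  have hSQ : S ^ 2 = Q := by rw [hS]; exact Real.sq_sqrt (Nat.cast_nonneg _)
  have hS0 : 0 < S := by rw [hS]; exact Real.sqrt_pos.2 (by exact_mod_cast hQ0)
  have hcr : (1 : ℝ) ≤ c := by exact_mod_cast hc
  -- M is large
  have hMS : 100 * (c : ℝ) * S ≤ M := by
    have h1 := sumle (T.map Prod.snd) c S (by
      intro y hy
      obtain ⟨p, hp1, rfl⟩ := Multiset.mem_map.1 hy
      obtain ⟨e1, e2, e3, -⟩ := hp p hp1
      have h2 : (100 * (c : ℝ) * p.1) ^ 2 ≤ S ^ 2 := by rw [hSQ]; exact_mod_cast e3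
      have h3 := abs_le_of_sq_le_sq' h2 hS0.le |>.2
      have h4 : (p.2 : ℝ) ≤ p.1 := by exact_mod_cast e2
      have h5 : 100 * (c : ℝ) * p.2 ≤ 100 * (c : ℝ) * p.1 :=
        mul_le_mul_of_nonneg_left h4 (by positivity)
      linarith)
    rw [← hQ, ← hM, ← hSQ] at h1
    have h2 : S * (100 * (c : ℝ) * S) ≤ S * M := by nlinarith
    exact le_of_mul_le_mul_left h2 hS0
  obtain ⟨F, hF⟩ : ∃ F : ℕ × ℕ → Prop, F = fun p => 9 * Q ≤ 10 * (c * p.1 * T.count p) ^ 2 :=
    ⟨_, rfl⟩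
  classical
  obtain ⟨R, hR⟩ : ∃ R, R = T.filter fun p => p.1 = p.2 ∧ F p := ⟨_, rfl⟩
  obtain ⟨P0, hP0⟩ : ∃ P0, P0 = T.filter fun p => ¬ (p.1 = p.2 ∧ F p) := ⟨_, rfl⟩
  have hT : R + P0 = T := by
    rw [hR, hP0]; exact Multiset.filter_add_not _ _
  obtain ⟨R', hR'⟩ : ∃ R', R' = R.map Prod.fst := ⟨_, rfl⟩
  have hR's : R.map Prod.snd = R' := by
    rw [hR']
    apply Multiset.map_congr rfl
    intro p hpR
    rw [hR, Multiset.mem_filter] at hpR
    exact hpR.2.1.symm
  have hRc : ∀ x, F (x, x) → R'.count x = T.count (x, x) := by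
    intro x hx
    rw [hR', hR]; exact cR T F x hx
  have hRc0 : ∀ x, ¬ F (x, x) → R'.count x = 0 := by
    intro x hx
    rw [hR', hR]; exact cR0 T F x hx
  have hRmem : ∀ x ∈ R', F (x, x) := by
    intro x hx
    by_contra h
    have := hRc0 x h
    rw [Multiset.count_eq_zero] at this
    exact this hx
  have hF' : ∀ x, F (x, x) ↔ 9 * Q ≤ 10 * (c * x * T.count (x, x)) ^ 2 := by
    intro x
    rw [hF]
  have hRT : ∀ x ∈ R', (x, x) ∈ T := by
    intro x hx
    rw [hR'] at hx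
    obtain ⟨p, hp1, rfl⟩ := Multiset.mem_map.1 hx
    rw [hR, Multiset.mem_filter] at hp1
    have : p = (p.1, p.1) := by rw [Prod.ext_iff]; exact ⟨rfl, hp1.2.1.symm⟩
    rw [← this]
    exact hp1.1
  obtain ⟨T0, hT0'⟩ : ∃ T0 : ℕ → ℕ, T0 = fun v => Nat.sqrt (2 * Q) / (20 * (c * v)) + 1 := ⟨_, rfl⟩
  have hT0v : ∀ v, T0 v = Nat.sqrt (2 * Q) / (20 * (c * v)) + 1 := fun v => by rw [hT0']
  have key : ∀ v ∈ R', 2 * T0 v + 7 ≤ R'.count v ∧ 2 * Q ≤ (20 * (c * v * T0 v)) ^ 2 ∧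
      ∀ r, r ≤ T0 v + 6 → (((c * v : ℕ) : ℝ) * r ≤ 0.1408 * S) ∧
        ∀ g, R'.count v = 4 * g + r → Q ≤ (5 * (c * v * g)) ^ 2 := by
    intro v hv
    have h1 := hRmem v hv
    have h2 := (hF' v).1 h1
    rw [← hRc v h1] at h2
    obtain ⟨e1, e2, e3, -⟩ := hp _ (hRT v hv)
    simp only at e1 e2 e3
    have h3 : 0 < c * v := Nat.mul_pos (by omega) (by omega)
    have h4 : (100 * (c * v)) ^ 2 ≤ Q := by
      rw [← mul_assoc]; exact e3
    have := ar (c * v) Q (R'.count v) (T0 v) h3 h4 h2 (hT0v v)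
    rw [← hS] at this
    exact this
  obtain ⟨g, r0, B2, B0, hA, hB, hcount⟩ := hs T0 R' 0 (by
    intro v hv
    rw [add_zero] at hv ⊢
    exact (key v hv).1)
  have hB0 : B0 = 0 := by
    have h := congrArg Multiset.card hB
    rw [Multiset.card_zero, Multiset.card_add] at h
    rw [← Multiset.card_eq_zero]
    omega
  rw [hB0] at hcount
  simp only [add_zero] at hcount
  -- counts
  have hRg : ∀ v, R'.count v = 4 * g.count v + r0.count v := by
    intro v
    conv_lhs => rw [hA]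
    rw [Multiset.count_add, Multiset.count_nsmul]
  have hr0R : ∀ v ∈ r0, v ∈ R' := by
    intro v hv
    rw [hA]; exact Multiset.mem_add.2 (Or.inr hv)
  have hgR : ∀ v ∈ g, v ∈ R' := by
    intro v hv
    rw [← Multiset.count_pos, hRg]
    have := Multiset.count_pos.2 hv
    omega
  -- the sum
  obtain ⟨W, hWdef⟩ : ∃ W, W = (T.map fun p => p.1 * (p.1 - p.2)).sum := ⟨_, rfl⟩
  rw [← hWdef] at hW
  have hWP : (P0.map fun p => p.1 * (p.1 - p.2)).sum ≤ W := by
    rw [hWdef, ← hT, Multiset.map_add, Multiset.sum_add]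
    omega
  have hsplit : P0 = P0.filter (fun p => p.1 = p.2) + P0.filter (fun p => ¬ p.1 = p.2) :=
    (Multiset.filter_add_not _ _).symm
  -- nondiagonal
  have hND : ((P0.filter fun p => ¬ p.1 = p.2).map Prod.fst).sum ≤ W := by
    refine le_trans ?_ hWP
    conv_rhs => rw [hsplit]
    rw [Multiset.map_add, Multiset.sum_add]
    refine le_trans ?_ (Nat.le_add_left _ _)
    apply Multiset.sum_map_le_sum_map
    intro p hpp
    rw [Multiset.mem_filter] at hpp
    have h3 : p ∈ T := by rw [← hT]; exact Multiset.mem_add.2 (Or.inr hpp.1)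
    have h4 := (hp p h3).2.1
    have h5 := hpp.2
    have h6 : 1 ≤ p.1 - p.2 := by omega
    exact Nat.le_mul_of_pos_right _ h6
  have hTx : ∀ x, (T.map Prod.fst).count x = R'.count x + (P0.map Prod.fst).count x := by
    intro x
    conv_lhs => rw [← hT]
    rw [Multiset.map_add, Multiset.count_add, hR']
  have hD : (P0.filter fun p => p.1 = p.2).map Prod.fst ≤
      19 • (P0.filter fun p => ¬ p.1 = p.2).map Prod.fst := by
    rw [Multiset.le_iff_count]
    intro x
    by_cases hx : x ∈ (P0.filter fun p => p.1 = p.2).map Prod.fst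
    · rw [Multiset.mem_map] at hx
      obtain ⟨p, hp1, hp2⟩ := hx
      rw [Multiset.mem_filter] at hp1
      obtain ⟨hp1, hp3⟩ := hp1
      have hpT : p ∈ T := by rw [← hT]; exact Multiset.mem_add.2 (Or.inr hp1)
      rw [hP0, Multiset.mem_filter] at hp1
      have hpx : p = (x, x) := by
        rw [Prod.ext_iff]; exact ⟨hp2, by rw [← hp3]; exact hp2⟩
      have hlt : ¬ F (x, x) := by
        intro h
        exact hp1.2 ⟨hp3, by rw [hpx]; exact h⟩
      have h1 := (hp p hpT).2.2.2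
      rw [hp2, hTx, hRc0 x hlt, zero_add] at h1
      have h2 : (P0.map Prod.fst).count x = ((P0.filter fun p => p.1 = p.2).map Prod.fst).count x +
          ((P0.filter fun p => ¬ p.1 = p.2).map Prod.fst).count x := by
        rw [← Multiset.count_add, ← Multiset.map_add, Multiset.filter_add_not]
      have h3 : ((P0.filter fun p => p.1 = p.2).map Prod.fst).count x ≤ T.count (x, x) := by
        rw [cfil, cdiag]
        exact Multiset.count_le_of_le _ (by rw [hP0]; exact Multiset.filter_le _ _)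
      rw [hF'] at hlt
      push Not at hlt
      rw [Multiset.count_nsmul]
      refine ar2 (c * x) (T.count (x, x)) _ _ Q hlt ?_ h3
      rw [← h2, mul_assoc]
      exact h1
    · rw [Multiset.count_eq_zero.2 hx]; exact Nat.zero_le _
  have hP0s : (P0.map Prod.snd).sum ≤ 20 * W := by
    have h1 : (P0.map Prod.snd).sum ≤ (P0.map Prod.fst).sum := by
      apply Multiset.sum_map_le_sum_map
      intro p hpp
      exact (hp p (by rw [← hT]; exact Multiset.mem_add.2 (Or.inr hpp))).2.1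
    have h2 : (P0.map Prod.fst).sum = ((P0.filter fun p => p.1 = p.2).map Prod.fst).sum +
        ((P0.filter fun p => ¬ p.1 = p.2).map Prod.fst).sum := by
      conv_lhs => rw [hsplit]
      rw [Multiset.map_add, Multiset.sum_add]
    have h3 := sum_mono hD
    rw [Multiset.sum_nsmul, smul_eq_mul] at h3
    omega
  have hsub : ∀ v ∈ R', v ∈ T.map Prod.fst := by
    intro v hv
    exact Multiset.mem_map.2 ⟨(v, v), hRT v hv, rfl⟩
  -- r0
  have hr0s : ((r0.sum : ℕ) : ℝ) ≤ 0.001408 * M := by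
    have h1 : (c : ℝ) * ((r0.sum : ℕ) : ℝ) ≤ ∑ v ∈ r0.toFinset, 0.1408 * S := by
      rw [Finset.sum_multiset_count r0]
      simp only [smul_eq_mul]
      push_cast
      rw [Finset.mul_sum]
      apply Finset.sum_le_sum
      intro v hv
      have hv' := hr0R v (Multiset.mem_toFinset.1 hv)
      have h2 := ((key v hv').2.2 (r0.count v) (hcount v hv').2).1
      push_cast at h2
      refine le_trans (le_of_eq ?_) h2
      ring
    rw [Finset.sum_const, nsmul_eq_mul] at h1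
    have h2 : r0.toFinset.card ≤ c ^ 2 := by
      refine le_trans (Finset.card_le_card ?_) hcard
      intro v hv
      rw [Multiset.mem_toFinset] at hv ⊢
      exact hsub v (hr0R v hv)
    have h3 : ((r0.toFinset.card : ℕ) : ℝ) ≤ (c : ℝ) ^ 2 := by exact_mod_cast h2
    have h4 : ((r0.toFinset.card : ℕ) : ℝ) * (0.1408 * S) ≤ (c : ℝ) ^ 2 * (0.1408 * S) :=
      mul_le_mul_of_nonneg_right h3 (by positivity)
    have h5 : (c : ℝ) * ((r0.sum : ℕ) : ℝ) ≤ c * (0.1408 * (c * S)) := by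
      refine (h1.trans h4).trans (le_of_eq ?_)
      ring
    have h6 := le_of_mul_le_mul_left h5 (by linarith)
    nlinarith
  have hfst : r0.map (Prod.fst ∘ fun v => (v, v)) = r0 := by
    have : (Prod.fst ∘ fun v : ℕ => (v, v)) = id := by funext v; rfl
    rw [this, Multiset.map_id]
  have hsnd : r0.map (Prod.snd ∘ fun v => (v, v)) = r0 := by
    have : (Prod.snd ∘ fun v : ℕ => (v, v)) = id := by funext v; rfl
    rw [this, Multiset.map_id]
  have heq : T.map Prod.snd = 4 • g + (P0 + r0.map (fun v => (v, v))).map Prod.snd := by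
    conv_lhs => rw [← hT]
    rw [Multiset.map_add, Multiset.map_add, hR's, Multiset.map_map, hsnd]
    conv_lhs => rw [hA]
    rw [add_assoc, add_comm r0]
  refine ⟨g, P0 + r0.map (fun v => (v, v)), heq, hc, by rw [← heq]; exact hQ,
    by rw [← heq]; exact hM, ?_, ?_, ?_, ?_, hM0, ?_, ?_⟩
  · intro v hv
    have hvR := hgR v hv
    obtain ⟨e1, e2, e3, -⟩ := hp _ (hRT v hvR)
    refine ⟨e1, e3, ?_⟩
    have h1 := ((key v hvR).2.2 (r0.count v) (hcount v hvR).2).2 (g.count v) (hRg v)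
    have h2 : 5 * c * (v * g.count v) = 5 * (c * v * g.count v) := by ring
    rw [h2]
    exact h1
  · intro p hpP
    rw [Multiset.map_add, Multiset.count_add, Multiset.map_map, hfst]
    have hmain : ∀ x, x ∈ R' → 2 * Q ≤
        (20 * c * (x * ((P0.map Prod.fst).count x + r0.count x))) ^ 2 := by
      intro x hx
      refine (key x hx).2.1.trans (Nat.pow_le_pow_left ?_ 2)
      have h1 := (hcount x hx).1
      calc 20 * (c * x * T0 x) ≤ 20 * (c * x * ((P0.map Prod.fst).count x + r0.count x)) := by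
            apply Nat.mul_le_mul_left
            apply Nat.mul_le_mul_left
            omega
        _ = _ := by ring
    rw [Multiset.mem_add] at hpP
    rcases hpP with hpP | hpP
    · have hpT : p ∈ T := by rw [← hT]; exact Multiset.mem_add.2 (Or.inr hpP)
      obtain ⟨e1, e2, e3, e4⟩ := hp p hpT
      refine ⟨e1, e2, e3, ?_⟩
      by_cases hx : p.1 ∈ R'
      · exact hmain _ hx
      · have h3 : R'.count p.1 = 0 := Multiset.count_eq_zero.2 hx
        rw [hTx, h3, zero_add] at e4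
        have h5 : c * (p.1 * (P0.map Prod.fst).count p.1) ≤
            c * (p.1 * ((P0.map Prod.fst).count p.1 + r0.count p.1)) := by
          apply Nat.mul_le_mul_left
          apply Nat.mul_le_mul_left
          omega
        have h6 := Nat.pow_le_pow_left h5 2
        have h7 : (20 * c * (p.1 * ((P0.map Prod.fst).count p.1 + r0.count p.1))) ^ 2 =
          400 * (c * (p.1 * ((P0.map Prod.fst).count p.1 + r0.count p.1))) ^ 2 := by ring
        rw [h7]
        omega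
    · rw [Multiset.mem_map] at hpP
      obtain ⟨v, hv, rfl⟩ := hpP
      have hvR := hr0R v hv
      obtain ⟨e1, e2, e3, e4⟩ := hp _ (hRT v hvR)
      exact ⟨e1, e2, e3, hmain v hvR⟩
  · refine le_trans (Finset.card_le_card ?_) hcard
    intro v hv
    rw [Multiset.mem_toFinset] at hv ⊢
    exact hsub v (hgR v hv)
  · refine le_trans (Finset.card_le_card ?_) hcard
    intro v hv
    rw [Multiset.mem_toFinset, Multiset.map_add, Multiset.map_map, hfst, Multiset.mem_add] at hv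
    rw [Multiset.mem_toFinset]
    rcases hv with hv | hv
    · obtain ⟨p, hp1, rfl⟩ := Multiset.mem_map.1 hv
      exact Multiset.mem_map.2 ⟨p, by rw [← hT]; exact Multiset.mem_add.2 (Or.inr hp1), rfl⟩
    · exact hsub v (hr0R v hv)
  · rw [Multiset.map_add, Multiset.sum_add, Multiset.map_map, hsnd]
    have h1 : ((P0.map Prod.snd).sum : ℝ) ≤ 20 * W := by exact_mod_cast hP0s
    have h2 : (10 : ℝ) ^ 5 * W ≤ M := by exact_mod_cast hW
    have h3 : (400 : ℝ) * ((P0.map Prod.snd).sum + r0.sum) ≤ M := by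
      have hM' : (0 : ℝ) ≤ M := Nat.cast_nonneg _
      have h4 : (W : ℝ) ≤ M / 10 ^ 5 := by
        rw [le_div_iff₀ (by norm_num)]; linarith
      nlinarith
    exact_mod_cast h3
  · rw [Multiset.map_add, Multiset.sum_add, Multiset.map_map]
    have h1 : (r0.map ((fun p : ℕ × ℕ => p.1 * (p.1 - p.2)) ∘ fun v => (v, v))).sum = 0 := by
      have : ((fun p : ℕ × ℕ => p.1 * (p.1 - p.2)) ∘ fun v : ℕ => (v, v)) = fun _ => 0 := by
        funext v; simp
      rw [this]; simp
    rw [h1, add_zero]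
    omega

end Pool.Agent.Helper62.UC.TGQ
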